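import Pool.Agent.H453R2.NearRational

/-!
An explicit lower bound for `|y^2 - x^3|` when `√x` is close to a rational number `r`,
and its special case for `x` near a perfect square.
-/

set_option autoImplicit false

namespace Pool.Agent.Results.MP_e734ed_nt.ExplicitNearRational

lemma near_rat (x y : ℤ) (r : ℚ) (hx : 0 < x) (hns : ¬ IsSquare x)
    (hclose : |√(x : ℝ) - r| ^ 5 * (r.den : ℝ) ^ 6 * √(x : ℝ) ≤ 1 / 32) :
    √(x : ℝ) ≤ 400 * |(y : ℝ) ^ 2 - x ^ 3| * (|√(x : ℝ) - r| * (r.den : ℝ) ^ 6) := by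
  have hr : ((r.num : ℤ) : ℝ) / ((r.den : ℤ) : ℝ) = (r : ℝ) := by
    rw [Int.cast_natCast]; exact (Rat.cast_def r).symm
  have hden : (0 : ℤ) < (r.den : ℤ) := by exact_mod_cast r.den_pos
  have hco : IsCoprime r.num (r.den : ℤ) := by
    rw [Int.isCoprime_iff_gcd_eq_one]
    simpa [Int.gcd] using r.reduced
  have h := Pool.Agent.H453R2.hall_near_rational x |y| r.num (r.den : ℤ) hx hns (abs_nonneg y) hden hco
    (by rw [hr, Int.cast_natCast]; exact hclose)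
  rw [hr, Int.cast_natCast] at h
  have e : ((|y| : ℤ) : ℝ) ^ 2 = (y : ℝ) ^ 2 := by
    push_cast; exact sq_abs _
  rw [e] at h
  exact h

lemma near_sq (x y u : ℤ) (hu : 0 < u) (hne : x ≠ u ^ 2) (hle : 2 * |x - u ^ 2| ^ 5 ≤ u ^ 4) :
    x ≤ 250 * |y ^ 2 - x ^ 3| * |x - u ^ 2| := by
  set b : ℤ := x - u ^ 2 with hb
  have hb0 : b ≠ 0 := fun h => hne (by linarith)
  have hb1 : 1 ≤ |b| := Int.one_le_abs hb0
  have hbu : |b| < u := by
    by_contra hcon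
    push Not at hcon
    have h1 : u ^ 5 ≤ |b| ^ 5 := pow_le_pow_left₀ hu.le hcon 5
    have h2 : u ^ 4 ≤ u ^ 5 := pow_le_pow_right₀ (by omega) (by norm_num)
    have h3 : 0 < u ^ 4 := by positivity
    linarith
  have hu2 : 2 ≤ u := by omega
  have habs := abs_lt.mp hbu
  have hx : x = u ^ 2 + b := by rw [hb]; ring
  have hxpos : 0 < x := by rw [hx]; nlinarith
  have hns : ¬ IsSquare x := by
    rintro ⟨c, hc⟩
    have hc2 : |c| ^ 2 = u ^ 2 + b := by rw [sq_abs, ← hx, hc]; ring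
    have h0 : 0 ≤ |c| := abs_nonneg c
    rcases lt_trichotomy |c| u with h | h | h
    · have h3 : |c| ≤ u - 1 := by omega
      have h4 : |c| ^ 2 ≤ (u - 1) ^ 2 := pow_le_pow_left₀ h0 h3 2
      nlinarith
    · rw [h] at hc2
      exact hb0 (by linarith)
    · have h3 : u + 1 ≤ |c| := by omega
      have h4 : (u + 1) ^ 2 ≤ |c| ^ 2 := pow_le_pow_left₀ (by omega) h3 2
      nlinarith
  set m : ℝ := √(x : ℝ) with hm
  have hxR : (0 : ℝ) < x := by exact_mod_cast hxpos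
  have hm2 : m ^ 2 = x := Real.sq_sqrt hxR.le
  have hm0 : 0 < m := Real.sqrt_pos.mpr hxR
  have huR : (2 : ℝ) ≤ u := by exact_mod_cast hu2
  have hxeq : (x : ℝ) = u ^ 2 + b := by exact_mod_cast hx
  have hbR : (m - u) * (m + u) = b := by linear_combination hm2 + hxeq
  have hmu : 0 < m + u := by linarith
  have hbabs : |m - u| * (m + u) = |(b : ℝ)| := by
    rw [← hbR, abs_mul, abs_of_pos hmu]
  have hbRu : |(b : ℝ)| ≤ u - 1 := by
    have : |b| ≤ u - 1 := by omega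
    exact_mod_cast this
  have hleR : 2 * |(b : ℝ)| ^ 5 ≤ (u : ℝ) ^ 4 := by exact_mod_cast hle
  have hab := abs_le.mp hbRu
  -- `3u/4 ≤ m` and `m ≤ 5u/4`
  have hm34 : 3 / 4 * (u : ℝ) ≤ m := by
    by_contra hcon
    push Not at hcon
    nlinarith [sq_nonneg ((u : ℝ) - 2)]
  have hm54 : m ≤ 5 / 4 * (u : ℝ) := by
    by_contra hcon
    push Not at hcon
    nlinarith [sq_nonneg ((u : ℝ) - 2)]
  have hclose : |m - ((u : ℚ) : ℝ)| ^ 5 * (((u : ℚ).den : ℕ) : ℝ) ^ 6 * m ≤ 1 / 32 := by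
    have e1 : (((u : ℚ).den : ℕ) : ℝ) = 1 := by simp
    have e2 : ((u : ℚ) : ℝ) = u := by simp
    rw [e1, e2, one_pow, mul_one]
    have h1 : |m - u| ^ 5 * m * (m + u) ^ 5 = |(b : ℝ)| ^ 5 * m := by
      rw [← hbabs]; ring
    have h2 : 16 * ((u : ℝ) ^ 4 * m) ≤ (m + u) ^ 5 := by
      have h3 : (7 / 4 * (u : ℝ)) ^ 4 ≤ (m + u) ^ 4 :=
        pow_le_pow_left₀ (by positivity) (by linarith) 4
      have h4 : (0 : ℝ) < (u : ℝ) ^ 4 := by positivity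
      calc 16 * ((u : ℝ) ^ 4 * m) ≤ (7 / 4 * (u : ℝ)) ^ 4 * (m + u) := by
            have : (7 / 4 * (u : ℝ)) ^ 4 * (m + u) = (u : ℝ) ^ 4 * (2401 / 256 * (m + u)) := by ring
            rw [this, show 16 * ((u : ℝ) ^ 4 * m) = (u : ℝ) ^ 4 * (16 * m) by ring]
            apply mul_le_mul_of_nonneg_left _ h4.le
            linarith
        _ ≤ (m + u) ^ 4 * (m + u) := mul_le_mul_of_nonneg_right h3 hmu.le
        _ = (m + u) ^ 5 := by ring
    have h5 : |m - u| ^ 5 * m * (m + u) ^ 5 ≤ 1 / 32 * (m + u) ^ 5 := by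
      rw [h1]
      calc |(b : ℝ)| ^ 5 * m ≤ ((u : ℝ) ^ 4 / 2) * m :=
            mul_le_mul_of_nonneg_right (by linarith) hm0.le
        _ ≤ 1 / 32 * (m + u) ^ 5 := by linarith
    exact le_of_mul_le_mul_right h5 (by positivity)
  have h := near_rat x y (u : ℚ) hxpos hns hclose
  have e1 : (((u : ℚ).den : ℕ) : ℝ) = 1 := by simp
  have e2 : ((u : ℚ) : ℝ) = u := by simp
  rw [e1, e2, one_pow, mul_one] at h
  have hk : 0 ≤ |(y : ℝ) ^ 2 - x ^ 3| := abs_nonneg _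
  have h6 : m * (m + u) ≤ 400 * |(y : ℝ) ^ 2 - x ^ 3| * |(b : ℝ)| := by
    rw [← hbabs]
    calc m * (m + u) ≤ (400 * |(y : ℝ) ^ 2 - x ^ 3| * |m - u|) * (m + u) :=
          mul_le_mul_of_nonneg_right h hmu.le
      _ = _ := by ring
  have h7 : 8 / 5 * (x : ℝ) ≤ m * (m + u) := by
    rw [← hm2]
    nlinarith
  have h8 : (x : ℝ) ≤ 250 * |(y : ℝ) ^ 2 - x ^ 3| * |(b : ℝ)| := by linarith
  exact_mod_cast h8

/-- (1) If `x > 0` is not a square and `r` is a rational number with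
`|√x - r|^5 den(r)^6 √x ≤ 1/32`, then `√x ≤ 400 |y^2 - x^3| |√x - r| den(r)^6` for all integers `y`.
(2) If `u > 0`, `x ≠ u^2` and `2 |x - u^2|^5 ≤ u^4`, then `x ≤ 250 |y^2 - x^3| |x - u^2|`
for all integers `y`. -/
theorem result :
    (∀ (x y : ℤ) (r : ℚ), 0 < x → ¬ IsSquare x →
      |√(x : ℝ) - r| ^ 5 * (r.den : ℝ) ^ 6 * √(x : ℝ) ≤ 1 / 32 →
      √(x : ℝ) ≤ 400 * |(y : ℝ) ^ 2 - x ^ 3| * (|√(x : ℝ) - r| * (r.den : ℝ) ^ 6)) ∧
    (∀ (x y u : ℤ), 0 < u → x ≠ u ^ 2 → 2 * |x - u ^ 2| ^ 5 ≤ u ^ 4 →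
      x ≤ 250 * |y ^ 2 - x ^ 3| * |x - u ^ 2|) :=
  ⟨near_rat, near_sq⟩

end Pool.Agent.Results.MP_e734ed_nt.ExplicitNearRational
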